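import Pool.Agent.Helper158.TC.Main
import Pool.Agent.Helper158.TC.Red
import Pool.Agent.Helper158.TC.Iso

set_option autoImplicit false

/-!
# Effective topological complexity of free actions on closed surfaces

`4 ≤ TC^{G,∞}(X)` for every free action of a finite group `G` on a closed connected surface `X` such
that `X / G` is homeomorphic to a hyperbolic surface `ℍ / Γ`. In particular this holds for the
antipodal involution of `Σ_g`, `g ≥ 2`, whose quotient is the non-orientable surface `N_{g+1}`.
-/

namespace Pool.Agent.Results.MP_f308f8_gt.TCFour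

open Set Topology UpperHalfPlane

/-- `SecatLE p k`: the base of `p : E → B` is covered by `k + 1` open sets `U`, each admitting a
continuous `s : U → E` such that `p ∘ s` is homotopic to the inclusion of `U`. -/
def SecatLE {E B : Type} [TopologicalSpace E] [TopologicalSpace B] (p : C(E, B)) (k : ℕ) : Prop :=
  ∃ U : Fin (k + 1) → Set B, (∀ i, IsOpen (U i)) ∧ (⋃ i, U i) = univ ∧
    ∀ i, ∃ s : C(U i, E), (p.comp s).Homotopic (⟨Subtype.val, continuous_subtype_val⟩ : C(U i, B))

/-- The (reduced) sectional category: the least `k` with `SecatLE p k`, or `∞`. -/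
noncomputable def secat {E B : Type} [TopologicalSpace E] [TopologicalSpace B] (p : C(E, B)) : ℕ∞ :=
  sInf {k : ℕ∞ | ∃ n : ℕ, k = n ∧ SecatLE p n}

section

variable (G X : Type) [TopologicalSpace G] [TopologicalSpace X] [SMul G X]

/-- The space `E_G(X)` of broken paths `(γ₁, h, γ₂)` with `h • γ₁(1) = γ₂(0)`, as a subspace of
`PX × G × PX` (path spaces with the compact-open topology). -/
abbrev BrokenPath : Type :=
  {e : C(unitInterval, X) × G × C(unitInterval, X) // e.2.1 • e.1 1 = e.2.2 0}

/-- The map `E_G(X) → X × X`, `(γ₁, h, γ₂) ↦ (γ₁(0), γ₂(1))`. -/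
def endpoints : C(BrokenPath G X, X × X) :=
  ⟨fun e => (e.1.1 0, e.1.2.2 1),
    ((continuous_eval_const 0).comp (continuous_fst.comp continuous_subtype_val)).prodMk
      ((continuous_eval_const 1).comp
        (continuous_snd.comp (continuous_snd.comp continuous_subtype_val)))⟩

/-- The effective topological complexity `TC^{G,∞}(X)`. -/
noncomputable def effectiveTC : ℕ∞ := secat (endpoints G X)

end

/-- **Theorem.** Let `X` be a closed connected surface with a free action of a finite group `G`.
Suppose that the quotient surface `X / G` is homeomorphic to a hyperbolic surface `ℍ / Γ`, where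
`Γ` is a group acting freely and properly discontinuously by isometries (orientation preserving or
not) on the hyperbolic plane `ℍ`. Then `TC^{G,∞}(X) ≥ 4`. -/
theorem result {Γ G X : Type}
    -- the closed connected surface `X`
    [TopologicalSpace X] [CompactSpace X] [T2Space X] [ConnectedSpace X]
    [ChartedSpace (EuclideanSpace ℝ (Fin 2)) X]
    -- the free action of the finite (discrete) group `G` on `X`
    [Group G] [Finite G] [TopologicalSpace G] [DiscreteTopology G]
    [MulAction G X] [ContinuousConstSMul G X] (freeG : ∀ (g : G) (x : X), g • x = x → g = 1)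
    -- the free and properly discontinuous isometric action of `Γ` on the hyperbolic plane
    [Group Γ] [MulAction Γ ℍ] [IsIsometricSMul Γ ℍ] [ProperlyDiscontinuousSMul Γ ℍ]
    (freeΓ : ∀ (γ : Γ) (z : ℍ), γ • z = z → γ = 1)
    -- `X / G` is homeomorphic to `ℍ / Γ`
    (e : MulAction.orbitRel.Quotient G X ≃ₜ MulAction.orbitRel.Quotient Γ ℍ) :
    4 ≤ effectiveTC G X := by
  have isometries : ∀ γ : Γ, ∃ M : Matrix.GeneralLinearGroup (Fin 2) ℝ, ∀ z : ℍ, γ • z = M • z :=
    fun γ => Pool.Agent.Helper158.TC.iso_gl (fun z => γ • z) (isometry_smul ℍ γ)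
  haveI : IsCancelSMul Γ ℍ := by
    rw [isCancelSMul_iff_eq_one_of_smul_eq]
    intro g z hz
    exact freeΓ g z hz
  haveI : LocallyCompactSpace X := ChartedSpace.locallyCompactSpace (EuclideanSpace ℝ (Fin 2)) X
  have hY : IsQuotientCoveringMap (Quotient.mk (MulAction.orbitRel Γ ℍ)) Γ :=
    isQuotientCoveringMap_quotientMk_of_properlyDiscontinuousSMul
  obtain ⟨φ, q, surj, quot, fibres, equivariant⟩ :=
    Pool.Agent.Helper158.TC.red_lift hY (Pool.Agent.Helper158.TC.red_cov freeG) e.symm
  refine le_sInf ?_
  rintro k ⟨n, rfl, U, hU, hcov, hs⟩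
  by_contra hn
  have hn3 : n ≤ 3 := by
    by_contra h
    apply hn
    have : (4 : ℕ) ≤ n := by omega
    exact_mod_cast this
  let r : Fin 4 → Fin (n + 1) := fun i => ⟨min (i : ℕ) n, by omega⟩
  refine Pool.Agent.Helper158.TC.main isometries freeΓ φ surj q quot fibres equivariant
    (fun i => U (r i)) (fun i => hU _) ?_ (fun i => hs (r i))
  rw [eq_univ_iff_forall]
  intro x
  have hx : x ∈ ⋃ i, U i := by rw [hcov]; exact mem_univ x
  obtain ⟨j, hj⟩ := mem_iUnion.1 hx
  refine mem_iUnion.2 ⟨⟨j, by omega⟩, ?_⟩
  have h1 : r ⟨j, by omega⟩ = j := by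
    apply Fin.ext
    simp only [r]
    have := j.2
    omega
  change x ∈ U (r ⟨j, by omega⟩)
  rw [h1]
  exact hj

end Pool.Agent.Results.MP_f308f8_gt.TCFour
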